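import Pool.Agent.H65.PLMain

namespace Pool.Agent.Results.MP_215185_al.NotResPL

open Pool.Agent.H65 Pool.Agent.H65.Squier Pool.Agent.H65.PL unitInterval

/-- A diagram group over a finite semigroup presentation with a non-trivial element killed by every
homomorphism to `PL₊([0,1])` and by every homomorphism to Thompson's group `F`. -/
theorem result : ∃ (A : Type) (R : Set (List A × List A)) (w : Vtx R),
    Finite A ∧ R.Finite ∧ (∀ r ∈ R, r.1 ≠ [] ∧ r.2 ≠ [] ∧ r.swap ∉ R) ∧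
    ∃ g : DiagramGroup R w, g ≠ 1 ∧
      (∀ φ : DiagramGroup R w →* (I ≃ₜ I), (∀ d, IsPL (φ d)) → φ g = 1) ∧
      (∀ φ : DiagramGroup R w →* (I ≃ₜ I), (∀ d, IsF (φ d)) → φ g = 1) := by
  obtain ⟨g, h1, h2⟩ := PL.main
  refine ⟨Fin 6, PL.R, PL.w0, inferInstance, by unfold PL.R; exact Set.toFinite _, ?_, g, h1, h2,
    fun φ h => h2 φ fun d => ?_⟩
  · rintro _ (rfl | rfl | rfl | rfl | rfl | rfl | rfl | rfl) <;> simp [PL.R]
  · obtain ⟨h3, B, -, h4⟩ := h d
    exact ⟨h3, B, fun a b hb => (h4 a b hb).elim fun k hk => ⟨_, hk⟩⟩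

end Pool.Agent.Results.MP_215185_al.NotResPL
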